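import Pool.Agent.Helper51.LT.St
import Pool.Agent.Helper60.Rel.Log
import Pool.Agent.Helper71.TU.X5aux

/-! # Project LT: module SYM (N-fold symmetrisation of a bounded univalent function) -/

set_option autoImplicit false

namespace Pool.Agent.Helper80.LT

open Pool.Agent.Helper51.LT
open Complex MeasureTheory Set Metric Filter Topology

theorem hSym : StSym := by
  intro g N hg h0 hN
  obtain ⟨⟨hgd, hgi⟩, hgb⟩ := hg
  have hN0 : N ≠ 0 := by omega
  have hNc : (N : ℂ) ≠ 0 := Nat.cast_ne_zero.2 hN0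
  have h0m : (0 : ℂ) ∈ ball (0 : ℂ) 1 := mem_ball_self one_pos
  have hg' : deriv g 0 ≠ 0 := Pool.TU.X5.deriv_ne_zero_of_injOn isOpen_ball hgd hgi h0m
  set ψ : ℂ → ℂ := fun z => dslope g 0 z / deriv g 0 with hψ
  have hψd : DifferentiableOn ℂ ψ (ball 0 1) := by
    apply DifferentiableOn.div_const
    exact (Complex.differentiableOn_dslope (isOpen_ball.mem_nhds h0m)).2 hgd
  have hψ0 : ψ 0 = 1 := by
    simp only [hψ, dslope_same]
    exact div_self hg'
  have hgz : ∀ z ∈ ball (0 : ℂ) 1, z ≠ 0 → g z ≠ 0 := fun z hz hz0 hh =>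
    hz0 (hgi hz h0m (by rw [hh, h0]))
  have hψg : ∀ z : ℂ, z ≠ 0 → ψ z = g z / z / deriv g 0 := by
    intro z hz0
    simp only [hψ]
    rw [dslope_of_ne _ hz0, slope_def_field, h0, sub_zero, sub_zero]
  have hψz : ∀ z ∈ ball (0 : ℂ) 1, ψ z ≠ 0 := by
    intro z hz
    by_cases hz0 : z = 0
    · rw [hz0, hψ0]
      exact one_ne_zero
    · rw [hψg z hz0]
      exact div_ne_zero (div_ne_zero (hgz z hz hz0) hz0) hg'
  obtain ⟨l, hld, hl0, hl⟩ := Pool.Agent.Helper60.Rel.exists_log_disc hψd hψz hψ0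
  have hgl : ∀ z ∈ ball (0 : ℂ) 1, g z = deriv g 0 * z * exp (l z) := by
    intro z hz
    by_cases hz0 : z = 0
    · rw [hz0, h0, mul_zero, zero_mul]
    · rw [hl z hz, hψg z hz0]
      field_simp
  have hpow : ∀ z ∈ ball (0 : ℂ) 1, z ^ N ∈ ball (0 : ℂ) 1 := by
    intro z hz
    rw [mem_ball_zero_iff] at hz ⊢
    rw [norm_pow]
    exact pow_lt_one₀ (norm_nonneg _) hz hN0
  have hdp : 0 < ‖deriv g 0‖ := norm_pos_iff.2 hg'
  obtain ⟨lam, hlam⟩ : ∃ lam : ℝ, lam = ‖deriv g 0‖ ^ (1 / (N : ℝ)) := ⟨_, rfl⟩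
  have hlamp : 0 < lam := by
    rw [hlam]
    exact Real.rpow_pos_of_pos hdp _
  have hlamN : lam ^ N = ‖deriv g 0‖ := by
    rw [hlam, ← Real.rpow_natCast, ← Real.rpow_mul hdp.le, one_div,
      inv_mul_cancel₀ (Nat.cast_ne_zero.2 hN0), Real.rpow_one]
  obtain ⟨c, hc⟩ : ∃ c : ℂ, c = ((‖deriv g 0‖ : ℝ) : ℂ) / deriv g 0 := ⟨_, rfl⟩
  have hcn : ‖c‖ = 1 := by
    rw [hc, norm_div, norm_real, norm_norm, div_self hdp.ne']
  have hc0 : c ≠ 0 := by
    rw [← norm_pos_iff, hcn]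
    exact one_pos
  obtain ⟨F, hF⟩ : ∃ F : ℂ → ℂ, F = fun z => exp (l (z ^ N) / N) := ⟨_, rfl⟩
  have hFd : ∀ z ∈ ball (0 : ℂ) 1, DifferentiableAt ℂ F z := by
    intro z hz
    have e1 : DifferentiableAt ℂ l (z ^ N) :=
      (hld _ (hpow z hz)).differentiableAt (isOpen_ball.mem_nhds (hpow z hz))
    have e2 : DifferentiableAt ℂ (fun z : ℂ => z ^ N) z := differentiableAt_pow N
    have e3 : DifferentiableAt ℂ (fun z : ℂ => l (z ^ N)) z :=
      DifferentiableAt.comp z e1 e2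
    rw [hF]
    exact (e3.div_const _).cexp
  have hF0 : F 0 = 1 := by
    rw [hF]
    simp only [zero_pow hN0, hl0, zero_div, exp_zero]
  have hFN : ∀ z, F z ^ N = exp (l (z ^ N)) := by
    intro z
    rw [hF]
    simp only
    rw [← exp_nat_mul, mul_div_cancel₀ _ hNc]
  have hFz : ∀ z, F z ≠ 0 := by
    intro z
    rw [hF]
    exact exp_ne_zero _
  have hFs : ∀ ω z : ℂ, ω ^ N = 1 → F (ω * z) = F z := by
    intro ω z hω
    rw [hF]
    simp only
    rw [mul_pow, hω, one_mul]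
  have hFe : ∀ z z' : ℂ, z ^ N = z' ^ N → F z = F z' := by
    intro z z' hzz
    rw [hF]
    simp only
    rw [hzz]
  obtain ⟨h, hh⟩ : ∃ h : ℂ → ℂ, h = fun z => (lam : ℂ) * z * F z := ⟨_, rfl⟩
  have hhN : ∀ z ∈ ball (0 : ℂ) 1, h z ^ N = c * g (z ^ N) := by
    intro z hz
    rw [hh]
    simp only
    rw [mul_pow, mul_pow, hFN, hgl _ (hpow z hz), ← ofReal_pow, hlamN, hc]
    field_simp
  have hhd : ∀ z ∈ ball (0 : ℂ) 1, DifferentiableAt ℂ h z := by
    intro z hz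
    rw [hh]
    exact ((differentiableAt_id).const_mul _).mul (hFd z hz)
  have hnorm : ∀ z ∈ ball (0 : ℂ) 1, ‖h z‖ ≤ 1 := by
    intro z hz
    have e1 : ‖h z‖ ^ N = ‖g (z ^ N)‖ := by
      rw [← norm_pow, hhN z hz, norm_mul, hcn, one_mul]
    have e2 : ‖h z‖ ^ N ≤ 1 := by
      rw [e1]
      exact hgb _ (hpow z hz)
    exact (pow_le_one_iff_of_nonneg (norm_nonneg _) hN0).1 e2
  refine ⟨h, ⟨⟨fun z hz => (hhd z hz).differentiableWithinAt, ?_⟩, hnorm⟩, ?_, ?_, ?_, ?_⟩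
  · intro z hz z' hz' heq
    have e1 : c * g (z ^ N) = c * g (z' ^ N) := by
      rw [← hhN z hz, ← hhN z' hz', heq]
    have e2 : z ^ N = z' ^ N := hgi (hpow z hz) (hpow z' hz') (mul_left_cancel₀ hc0 e1)
    have e3 : F z = F z' := hFe z z' e2
    rw [hh] at heq
    simp only at heq
    rw [e3] at heq
    have e4 := mul_right_cancel₀ (hFz z') heq
    exact mul_left_cancel₀ (ofReal_ne_zero.2 hlamp.ne') e4
  · rw [hh]
    simp
  · intro ω z hω hz
    rw [hh]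
    simp only
    rw [hFs ω z hω]
    ring
  · have e1 : HasDerivAt h ((lam : ℂ) * 1 * F 0 + (lam : ℂ) * 0 * deriv F 0) 0 := by
      rw [hh]
      exact ((hasDerivAt_id (0 : ℂ)).const_mul (lam : ℂ)).mul (hFd 0 h0m).hasDerivAt
    rw [e1.deriv, hF0, ← hlam]
    ring
  · intro z hz
    have e1 : HasDerivAt (fun z => h z ^ N) ((N : ℂ) * h z ^ (N - 1) * deriv h z) z :=
      (hhd z hz).hasDerivAt.pow N
    have e2 : HasDerivAt g (deriv g (z ^ N)) (z ^ N) :=
      ((hgd _ (hpow z hz)).differentiableAt (isOpen_ball.mem_nhds (hpow z hz))).hasDerivAt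
    have e3 : HasDerivAt (fun z => c * g (z ^ N))
        (c * (deriv g (z ^ N) * ((N : ℂ) * z ^ (N - 1)))) z :=
      (HasDerivAt.comp z e2 (hasDerivAt_pow N z)).const_mul c
    have e4 : (fun z => h z ^ N) =ᶠ[𝓝 z] fun z => c * g (z ^ N) := by
      filter_upwards [isOpen_ball.mem_nhds hz] with w hw
      exact hhN w hw
    have e5 := (e1.congr_of_eventuallyEq e4.symm).unique e3
    have e6 : h z ^ (N - 1) * deriv h z = c * (deriv g (z ^ N) * z ^ (N - 1)) := by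
      apply mul_left_cancel₀ hNc
      linear_combination e5
    have e7 : ‖h z‖ ^ (N - 1) * ‖deriv h z‖ = ‖z‖ ^ (N - 1) * ‖deriv g (z ^ N)‖ := by
      rw [← norm_pow, ← norm_mul, e6, norm_mul, hcn, one_mul, norm_mul, norm_pow, mul_comm]
    rw [← e7]
    calc ‖h z‖ ^ (N - 1) * ‖deriv h z‖ ≤ 1 * ‖deriv h z‖ := by
          apply mul_le_mul_of_nonneg_right _ (norm_nonneg _)
          exact pow_le_one₀ (norm_nonneg _) (hnorm z hz)
      _ = ‖deriv h z‖ := one_mul _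

end Pool.Agent.Helper80.LT
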