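import Pool.Agent.Helper49.LT.StC

/-!
# Project LT (MP_b21509_co): module DSK, the regular hexagon in the disk
-/

set_option autoImplicit false

open MeasureTheory Set Filter Metric

namespace Pool.Agent.Helper80.LT

open Helper49.LT Helper97.CB

private theorem mem_cb {z : ℂ} {ρ : ℝ} (hρ : 0 < ρ) (h : z.re ^ 2 + z.im ^ 2 = ρ ^ 2) :
    z ∈ closedBall (0 : ℂ) ρ := by
  rw [mem_closedBall_zero_iff]
  have h2 : ‖z‖ ^ 2 = ρ ^ 2 := by
    rw [← Complex.normSq_eq_norm_sq, Complex.normSq_apply, ← h]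
    ring
  exact le_of_eq ((pow_left_inj₀ (norm_nonneg z) hρ.le two_ne_zero).1 h2)

private theorem area_cb {ρ : ℝ} (hρ : 0 < ρ) : area (closedBall (0 : ℂ) ρ) = Real.pi * ρ ^ 2 := by
  unfold area
  rw [Complex.volume_closedBall]
  simp [ENNReal.toReal_mul, ENNReal.toReal_pow, ENNReal.toReal_ofReal hρ.le]
  ring

/-- module DSK -/
theorem hDSK : StDsk := by
  intro ρ hρ hS
  have hs : Real.sqrt 3 ^ 2 = 3 := Real.sq_sqrt (by norm_num)
  have hs0 : 0 < Real.sqrt 3 := Real.sqrt_pos.2 (by norm_num)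
  have hcr : cr ((ρ : ℝ) : ℂ) (⟨0, Real.sqrt 3 * ρ⟩ : ℂ) = Real.sqrt 3 * ρ ^ 2 := by
    simp only [cr, Complex.ofReal_re, Complex.ofReal_im]
    ring
  have hH : Hex (closedBall (0 : ℂ) ρ) ⟨-(ρ / 2), -(Real.sqrt 3 / 2 * ρ)⟩ ((ρ : ℝ) : ℂ) ⟨0, Real.sqrt 3 * ρ⟩
      (1 / 2) (1 / 2) (1 / 2) (1 / 2) := by
    refine ⟨?_, by norm_num, by norm_num, by norm_num [mem_Icc], by norm_num [mem_Icc], ?_, ?_, ?_, ?_, ?_, ?_⟩
    · rw [hcr]; positivity
    all_goals
      apply mem_cb hρ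
      simp only [Complex.add_re, Complex.add_im, Complex.sub_re, Complex.sub_im, Complex.mul_re, Complex.mul_im,
        Complex.ofReal_re, Complex.ofReal_im]
      nlinarith [hs]
  have h := hS _ _ _ _ _ _ _ hH
  rw [hcr, area_cb hρ] at h
  have he : 2 * (m0 * (1 + 0)) * (Real.pi * ρ ^ 2) = 3 * (Real.sqrt 3 * ρ ^ 2) := by
    unfold m0
    field_simp
    ring
  rw [he] at h
  linarith

end Pool.Agent.Helper80.LT
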