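import Pool.Agent.Helper69.LT.St
import Pool.Agent.Helper84.LE.M_N0
import Pool.Agent.Helper84.LE.M_BK
import Pool.Agent.Helper84.LE.M_Menger

/-!
# Project LT (MP_65faa7), module Dbl: doubly connected points
-/

set_option autoImplicit false

open scoped BigOperators ENNReal
open Pool.LE Pool.NL

namespace Pool.LT

theorem hDbl : SDbl := by
  intro V _ E p T nbf h0 hp hT hn v x hx
  classical
  have h1 : Pr E p (fun ω => dbl ω v x) ≤
      Pr E p (fun ω => ∃ η ⊆ ω, con η v x ∧ n0F (nbf v) v x (ω \ η)) := by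
    refine Pr_mono fun ω hω hd => ?_
    obtain ⟨P, -, hev⟩ := n0_event hMenger hω hn hx hd
    obtain ⟨η, h2, ⟨q, -, -⟩, h3⟩ := hev x (SimpleGraph.Walk.end_mem_support P)
    exact ⟨η, h2, ⟨q⟩, h3⟩
  refine h1.trans ?_
  refine (hBK V E p h0 hp (fun η => con η v x) (n0F (nbf v) v x)
    (fun ω η h h' => con_mono h h') (n0F_inc (nbf v) v x)).trans ?_
  exact mul_le_mul' (hT v x) (n0F_Pr hBK h0 hp hT (nbf v) v x)

end Pool.LT
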