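import Pool.Agent.Helper51.LT.St
import Pool.Agent.Helper60.Rel.GFun

/-! # Project LT: module LIM (growth of `G` on the strip) -/

set_option autoImplicit false

namespace Pool.Agent.Helper80.LT

open Pool.Agent.Helper51.LT
open Complex MeasureTheory Set Metric Filter Topology
open scoped Real
open Pool.Agent.Helper60.Rel (LH LogData bieb)

theorem hLim : StLim := by
  intro f G lam h
  have hopen : IsOpen LH := isOpen_lt continuous_re continuous_const
  have hmem : ∀ x y : ℝ, x < 0 → ((x : ℂ) + (y : ℂ) * I) ∈ LH := by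
    intro x y hx
    change ((x : ℂ) + (y : ℂ) * I).re < 0
    simpa using hx
  have hdiff : ∀ x y : ℝ, x < 0 → DifferentiableAt ℂ G ((x : ℂ) + (y : ℂ) * I) := fun x y hx =>
    (h.Gdiff _ (hmem x y hx)).differentiableAt (hopen.mem_nhds (hmem x y hx))
  -- bound on the segment
  have hseg : ContinuousOn (fun y : ℝ => G (((-1 : ℝ) : ℂ) + (y : ℂ) * I)) (Icc (-7) 14) := by
    intro y _
    have h1 : ContinuousAt (fun y : ℝ => ((-1 : ℝ) : ℂ) + (y : ℂ) * I) y := by fun_prop
    exact (ContinuousAt.comp (f := fun y : ℝ => ((-1 : ℝ) : ℂ) + (y : ℂ) * I)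
      (hdiff (-1) y (by norm_num)).continuousAt h1).continuousWithinAt
  obtain ⟨C, hC⟩ := isCompact_Icc.exists_bound_of_continuousOn hseg
  refine ⟨max C 0, le_max_right _ _, fun ζ h1 h2 h3 h4 => ?_⟩
  set x : ℝ := ζ.re with hx
  set y : ℝ := ζ.im with hy
  have hζ : ζ = (x : ℂ) + (y : ℂ) * I := by rw [hx, hy, re_add_im]
  set F : ℝ → ℂ := fun t => G ((t : ℂ) + (y : ℂ) * I) - G (((-1 : ℝ) : ℂ) + (y : ℂ) * I) with hF
  have hFd : ∀ t : ℝ, t < 0 → HasDerivAt F (deriv G ((t : ℂ) + (y : ℂ) * I)) t := by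
    intro t ht
    have e1 : HasDerivAt (fun z : ℂ => z + (y : ℂ) * I) 1 (t : ℂ) :=
      (hasDerivAt_id (t : ℂ)).add_const _
    have e2 := HasDerivAt.comp (t : ℂ) (hdiff t y ht).hasDerivAt e1
    rw [mul_one] at e2
    exact (e2.comp_ofReal).sub_const _
  have hBd : ∀ t : ℝ, t < 0 → HasDerivAt (fun t : ℝ => -(30 * Real.log (-t))) (30 / (-t)) t := by
    intro t ht
    have e1 : HasDerivAt (fun t : ℝ => -t) (-1) t := hasDerivAt_neg t
    have e2 := ((e1.log (by linarith : -t ≠ 0)).const_mul 30).neg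
    have e3 : -(30 * (-1 / -t)) = 30 / (-t) := by
      field_simp
    rw [e3] at e2
    exact e2
  have key := image_norm_le_of_norm_deriv_right_le_deriv_boundary' (f := F) (a := -1) (b := x)
    (f' := fun t => deriv G ((t : ℂ) + (y : ℂ) * I)) (B := fun t : ℝ => -(30 * Real.log (-t)))
    (B' := fun t => 30 / (-t))
    (fun t ht => (hFd t (lt_of_le_of_lt ht.2 h2)).continuousAt.continuousWithinAt)
    (fun t ht => (hFd t (lt_trans ht.2 h2)).hasDerivWithinAt)
    (by simp [hF])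
    (fun t ht => (hBd t (lt_of_le_of_lt ht.2 h2)).continuousAt.continuousWithinAt)
    (fun t ht => (hBd t (lt_trans ht.2 h2)).hasDerivWithinAt)
    (fun t ht => by
      have e1 := Pool.Agent.Helper46.Rel.deriv_bound_of bieb h.Gdiff h.Ginj h.Gper
        (hmem t y (lt_trans ht.2 h2)) (by simpa using ht.1)
      simpa using e1)
    (right_mem_Icc.2 h1)
  simp only [hF] at key
  rw [← hζ] at key
  have e1 : -(30 * Real.log (-x)) = 30 * Real.log (1 / (-x)) := by
    rw [one_div, Real.log_inv]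
    ring
  rw [e1] at key
  have e2 := hC y ⟨h3, h4⟩
  have e3 : ‖G ζ‖ ≤ ‖G ζ - G (((-1 : ℝ) : ℂ) + (y : ℂ) * I)‖ +
      ‖G (((-1 : ℝ) : ℂ) + (y : ℂ) * I)‖ := by
    have := norm_add_le (G ζ - G (((-1 : ℝ) : ℂ) + (y : ℂ) * I))
      (G (((-1 : ℝ) : ℂ) + (y : ℂ) * I))
    rwa [sub_add_cancel] at this
  have e4 := le_max_left C 0
  linarith

end Pool.Agent.Helper80.LT
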